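import Pool.Agent.Helper5.LCU.Stmts

set_option autoImplicit false

open Finset Pool.Agent.Helper89.UB

namespace Pool.Agent.Helper5.LCU

theorem st_MU (hGD : ST_GD) (hUF1 : ST_UF1) (hUF2 : ST_UF2) (hUF3 : ST_UF3) : ST_MU := by
  classical
  intro n E S r hS hr hE
  rw [hGD n E S]
  obtain ⟨v, hv⟩ := hS
  refine ⟨1, ⟨{v}, Finset.singleton_subset_iff.2 hv, ?_, Finset.card_singleton v⟩, ?_, ?_⟩
  · intro a ha b hb hab
    rw [Finset.mem_singleton] at ha hb
    exact absurd (ha.trans hb.symm) hab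
  · intro K hK hC
    by_contra hc
    obtain ⟨a, ha, b, hb, hab⟩ := Finset.one_lt_card.1 (not_le.1 hc)
    have hsub : ({a, b} : Finset (Fin n)) ⊆ S := by
      intro z hz
      rw [Finset.mem_insert, Finset.mem_singleton] at hz
      rcases hz with rfl | rfl
      · exact hK ha
      · exact hK hb
    have h1 := (hE _ hsub).1 ⟨_, hC a ha b hb hab, subset_rfl⟩
    have h2 : ({a, b} : Finset (Fin n)).card ≤ 2 := Finset.card_le_two
    omega
  · obtain ⟨x, hx⟩ : ∃ x, S.card = x + 1 :=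
      ⟨S.card - 1, (Nat.succ_pred_eq_of_pos (Finset.card_pos.2 ⟨v, hv⟩)).symm⟩
    have key : sq E S 1 = fun j => (x.factorial : ℝ) *
        (Polynomial.derivative (FR r) * (FR r) ^ j).coeff x := by
      funext j
      have h1 := hUF1 n E S r hE (1 + j) S subset_rfl
      have h3 := hUF3 r j x
      rw [hx, add_comm 1 j] at h1
      unfold sq
      rw [add_comm 1 j, h1, Nat.factorial_succ x, Nat.factorial_succ j]
      have hj : ((j.factorial : ℕ) : ℝ) ≠ 0 := by exact_mod_cast (Nat.factorial_pos j).ne'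
      have hj' : ((j : ℝ) + 1) ≠ 0 := by positivity
      push_cast
      rw [mul_comm ((x : ℝ) + 1), mul_assoc (x.factorial : ℝ), h3]
      field_simp
    rw [key]
    obtain ⟨h4, h5⟩ := hUF2 r x hr
    have h0 : (0 : ℝ) ≤ (x.factorial : ℝ) := Nat.cast_nonneg _
    refine ⟨fun j => mul_nonneg h0 (h4 j), fun i j hij => ?_⟩
    have h6 := mul_le_mul_of_nonneg_left (h5 i j hij) (mul_nonneg h0 h0)
    simp only at h6 ⊢
    nlinarith [h6]

end Pool.Agent.Helper5.LCU
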