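import Pool.Agent.Helper5.LCU.Stmts

set_option autoImplicit false

open Finset Pool.Agent.Helper89.UB

namespace Pool.Agent.Helper5.LCU

theorem st_UF3 : ST_UF3 := by
  intro r m x
  have h1 := congrArg (fun p => Polynomial.coeff p x) (Polynomial.derivative_pow_succ (FR r) m)
  simp only [Polynomial.coeff_derivative] at h1
  rw [mul_comm, h1, mul_assoc, Polynomial.coeff_C_mul, mul_comm ((FR r) ^ m)]

end Pool.Agent.Helper5.LCU
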